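import Pool.Agent.H9.KA.Stmts

/-!
# Larger sample spaces
-/

set_option autoImplicit false

namespace Pool.KA

open Finset Real
open Pool.Agent.H49.Ent Pool.Agent.H32.Dense Pool.STK

/-- **Larger sample spaces**: violations and deficits do not change. -/
theorem ext_thm : EXTStmt := by
  intro m J F Ω' _ q hq pr hM
  have hV : ∀ j, (F.ext q hq pr).V j = F.V j := by
    intro j
    have h1 : CH q (fun w => F.D J (pr w)) (fun w => F.Z (pr w)) = CH F.p (F.D J) F.Z :=
      hM.CH (F.D J) F.Z
    have h2 : CH q (fun w => F.X j (pr w)) (fun w => F.W (pr w)) = CH F.p (F.X j) F.W :=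
      hM.CH (F.X j) F.W
    show CH q (fun w => F.D J (pr w)) (fun w => F.Z (pr w)) -
      CH q (fun w => F.X j (pr w)) (fun w => F.W (pr w)) - m * (((J : ℝ) - j) * Real.log 2) = _
    rw [h1, h2]
    rfl
  have hT : CH q (fun w => F.T (pr w)) (fun w => (F.l (pr w), F.Z (pr w))) =
      CH F.p F.T (fun ω => (F.l ω, F.Z ω)) := hM.CH F.T (fun ω => (F.l ω, F.Z ω))
  refine ⟨hV, fun e => ?_⟩
  constructor
  · intro h
    have h' : (J : ℝ) * Real.log 2 - e ≤
        CH q (fun w => F.T (pr w)) (fun w => (F.l (pr w), F.Z (pr w))) := h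
    rw [hT] at h'
    exact h'
  · intro h
    have h' : (J : ℝ) * Real.log 2 - e ≤ CH F.p F.T (fun ω => (F.l ω, F.Z ω)) := h
    rw [← hT] at h'
    exact h'

end Pool.KA
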