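import Pool.Agent.H9.KA.Stmts
import Pool.Agent.H58.STK.Base

/-!
# Fans
-/

set_option autoImplicit false

namespace Pool.KA

open Finset Real
open Pool.Agent.H49.Ent Pool.Agent.H32.Dense Pool.STK

namespace FANm

section Gen

variable {Ω S T U : Type*} [Fintype Ω]

/-- Bayes' formula. -/
theorem bayes {p : Ω → ℝ} (hp : ∀ ω, 0 ≤ p ω) (X : Ω → S) (z : Ω → T) (W : Ω → U) :
    CH p X (fun ω => (z ω, W ω)) = CH p X W - (CH p z W - CH p z (fun ω => (X ω, W ω))) := by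
  have h1 := CH_chain hp X z W
  have h2 := CH_chain hp z X W
  have h3 : CH p (fun ω => (X ω, z ω)) W = CH p (fun ω => (z ω, X ω)) W := by
    refine CH_congr hp ?_ ?_ (fun _ _ _ _ h => h) (fun _ _ _ _ h => h) <;>
    · intro ω ω' _ _ h
      simp only [Prod.mk.injEq] at h ⊢
      tauto
  linarith

/-- Variables within a bounded number of cells. -/
theorem cells {m : ℕ} {p : Ω → ℝ} (hp : ∀ ω, 0 ≤ p ω) (h1 : ∑ ω, p ω = 1) (X : Ω → Fin m → ℤ)
    (W : Ω → T)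
    (h : ∀ ω ω', W ω = W ω' → ∀ k, |((X ω k - X ω' k : ℤ) : ℝ)| ≤ 3) :
    CH p X W ≤ m * Real.log 7 := by
  have h2 := CH_le_vec hp h1 X W (fun _ => 3) (fun ω ω' _ _ e k => h ω ω' e k)
  rw [Ex_const h1] at h2
  norm_num at h2
  exact h2

end Gen

lemma floor_sub {a b : ℝ} (h : |a - b| ≤ 2) : |((⌊a⌋ - ⌊b⌋ : ℤ) : ℝ)| ≤ 3 := by
  have h1 := Int.floor_le a
  have h2 := Int.lt_floor_add_one a
  have h3 := Int.floor_le b
  have h4 := Int.lt_floor_add_one b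
  rw [abs_le] at h ⊢
  push_cast
  constructor <;> linarith

lemma abs_of_floor {a b : ℝ} (h : ⌊a⌋ = ⌊b⌋) : |a - b| ≤ 1 := by
  have h1 := Int.floor_le a
  have h2 := Int.lt_floor_add_one a
  have h3 := Int.floor_le b
  have h4 := Int.lt_floor_add_one b
  rw [h] at h1 h2
  rw [abs_le]
  constructor <;> linarith

/-- The lines at scale `q`, given the directions at scale `q` and the positions at a finer
scale. -/
lemma num2 {q w : ℕ} (hqw : q ≤ w) {t u u' d d' : ℝ} (ht0 : 0 ≤ t) (ht1 : t ≤ 1)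
    (hd : ⌊(2 : ℝ) ^ q * d⌋ = ⌊(2 : ℝ) ^ q * d'⌋)
    (hx : ⌊(2 : ℝ) ^ w * (u + t * d)⌋ = ⌊(2 : ℝ) ^ w * (u' + t * d')⌋) :
    |((⌊(2 : ℝ) ^ q * u⌋ - ⌊(2 : ℝ) ^ q * u'⌋ : ℤ) : ℝ)| ≤ 3 := by
  apply floor_sub
  obtain ⟨k, rfl⟩ := Nat.exists_eq_add_of_le hqw
  have hx' := Pool.STK.B58.floor_fine q k hx
  have h1 := abs_of_floor hd
  have h2 := abs_of_floor hx'
  have e : (2 : ℝ) ^ q * u - 2 ^ q * u' = (2 ^ q * (u + t * d) - 2 ^ q * (u' + t * d')) -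
      t * (2 ^ q * d - 2 ^ q * d') := by ring
  rw [e]
  have h3 : |t * (2 ^ q * d - 2 ^ q * d')| ≤ 1 := by
    rw [abs_mul, abs_of_nonneg ht0]
    calc t * |(2 : ℝ) ^ q * d - 2 ^ q * d'| ≤ 1 * 1 := mul_le_mul ht1 h1 (abs_nonneg _) zero_le_one
      _ = 1 := one_mul 1
  calc _ ≤ |(2 : ℝ) ^ q * (u + t * d) - 2 ^ q * (u' + t * d')| + |t * (2 ^ q * d - 2 ^ q * d')| :=
        abs_sub _ _
    _ ≤ 2 := by linarith

/-- The positions in the tube, given the positions. -/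
lemma num1 {J q w T : ℕ} (hqw : q ≤ w) (hwJ : w ≤ J) {u u' d d' : ℝ}
    (hu : ⌊(2 : ℝ) ^ q * u⌋ = ⌊(2 : ℝ) ^ q * u'⌋)
    (hd : ⌊(2 : ℝ) ^ q * d⌋ = ⌊(2 : ℝ) ^ q * d'⌋)
    (hx : ⌊(2 : ℝ) ^ w * (u + (T : ℝ) / 2 ^ J * d)⌋ =
      ⌊(2 : ℝ) ^ w * (u' + (T : ℝ) / 2 ^ J * d')⌋) :
    |((⌊(2 : ℝ) ^ (w - q) * (Int.fract ((2 : ℝ) ^ q * u) +
        ((T / 2 ^ q : ℕ) : ℝ) / 2 ^ (J - q) * Int.fract ((2 : ℝ) ^ q * d))⌋ -
      ⌊(2 : ℝ) ^ (w - q) * (Int.fract ((2 : ℝ) ^ q * u') +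
        ((T / 2 ^ q : ℕ) : ℝ) / 2 ^ (J - q) * Int.fract ((2 : ℝ) ^ q * d'))⌋ : ℤ) : ℝ)| ≤ 3 := by
  apply floor_sub
  have h1 := abs_of_floor hd
  have h2 := abs_of_floor hx
  obtain ⟨k, rfl⟩ := Nat.exists_eq_add_of_le hqw
  obtain ⟨l, rfl⟩ := Nat.exists_eq_add_of_le hwJ
  have ek : q + k - q = k := by omega
  have el : q + k + l - q = k + l := by omega
  rw [ek, el]
  set s : ℝ := ((T / 2 ^ q : ℕ) : ℝ) / 2 ^ (k + l) with hs
  set t : ℝ := (T : ℝ) / 2 ^ (q + k + l) with ht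
  have hT1 : ((T / 2 ^ q : ℕ) : ℝ) * 2 ^ q ≤ T := by
    exact_mod_cast Nat.div_mul_le_self T (2 ^ q)
  have hT2 : (T : ℝ) ≤ ((T / 2 ^ q : ℕ) : ℝ) * 2 ^ q + 2 ^ q := by
    have h3 : T < 2 ^ q * (T / 2 ^ q + 1) := Nat.lt_mul_div_succ T (by positivity)
    have h4 : (T : ℝ) < 2 ^ q * ((T / 2 ^ q : ℕ) + 1) := by exact_mod_cast h3
    linarith
  have hP : (0 : ℝ) < 2 ^ (k + l) := by positivity
  have hQ : (0 : ℝ) < 2 ^ q := by positivity
  have hst : 0 ≤ t - s ∧ (t - s) * 2 ^ (k + l) ≤ 1 := by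
    have e1 : (t - s) * 2 ^ (k + l) * 2 ^ q = T - ((T / 2 ^ q : ℕ) : ℝ) * 2 ^ q := by
      rw [ht, hs]
      have : (2 : ℝ) ^ (q + k + l) = 2 ^ (k + l) * 2 ^ q := by
        rw [← pow_add]
        congr 1
        omega
      rw [this]
      field_simp
    have e2 : 0 ≤ (t - s) * 2 ^ (k + l) * 2 ^ q := by
      rw [e1]
      linarith
    have e3 : (t - s) * 2 ^ (k + l) * 2 ^ q ≤ 1 * 2 ^ q := by
      rw [e1]
      linarith
    refine ⟨?_, le_of_mul_le_mul_right e3 hQ⟩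
    by_contra hcon
    push Not at hcon
    have : (t - s) * 2 ^ (k + l) * 2 ^ q < 0 :=
      mul_neg_of_neg_of_pos (mul_neg_of_neg_of_pos hcon hP) hQ
    linarith
  have hfu : Int.fract ((2 : ℝ) ^ q * u) - Int.fract ((2 : ℝ) ^ q * u') = 2 ^ q * u - 2 ^ q * u' := by
    unfold Int.fract
    rw [hu]
    ring
  have hfd : Int.fract ((2 : ℝ) ^ q * d) - Int.fract ((2 : ℝ) ^ q * d') = 2 ^ q * d - 2 ^ q * d' := by
    unfold Int.fract
    rw [hd]
    ring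
  have e : (2 : ℝ) ^ k * (Int.fract (2 ^ q * u) + s * Int.fract (2 ^ q * d)) -
      2 ^ k * (Int.fract (2 ^ q * u') + s * Int.fract (2 ^ q * d')) =
      (2 ^ (q + k) * (u + t * d) - 2 ^ (q + k) * (u' + t * d')) -
        2 ^ k * (t - s) * (2 ^ q * d - 2 ^ q * d') := by
    have : (2 : ℝ) ^ k * (Int.fract (2 ^ q * u) + s * Int.fract (2 ^ q * d)) -
      2 ^ k * (Int.fract (2 ^ q * u') + s * Int.fract (2 ^ q * d')) =
      2 ^ k * ((Int.fract (2 ^ q * u) - Int.fract (2 ^ q * u')) +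
        s * (Int.fract (2 ^ q * d) - Int.fract (2 ^ q * d'))) := by ring
    rw [this, hfu, hfd, pow_add]
    ring
  rw [e]
  have h3 : |(2 : ℝ) ^ k * (t - s) * (2 ^ q * d - 2 ^ q * d')| ≤ 1 := by
    have hk : (2 : ℝ) ^ k ≤ 2 ^ (k + l) := pow_le_pow_right₀ one_le_two (Nat.le_add_right _ _)
    have h4 : (2 : ℝ) ^ k * (t - s) ≤ 1 := by
      calc (2 : ℝ) ^ k * (t - s) ≤ 2 ^ (k + l) * (t - s) :=
            mul_le_mul_of_nonneg_right hk hst.1
        _ = (t - s) * 2 ^ (k + l) := mul_comm _ _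
        _ ≤ 1 := hst.2
    have h5 : 0 ≤ (2 : ℝ) ^ k * (t - s) := mul_nonneg (by positivity) hst.1
    rw [abs_mul, abs_of_nonneg h5]
    calc (2 : ℝ) ^ k * (t - s) * |(2 : ℝ) ^ q * d - 2 ^ q * d'| ≤ 1 * 1 :=
          mul_le_mul h4 h1 (abs_nonneg _) zero_le_one
      _ = 1 := one_mul 1
  calc _ ≤ |(2 : ℝ) ^ (q + k) * (u + t * d) - 2 ^ (q + k) * (u' + t * d')| +
        |(2 : ℝ) ^ k * (t - s) * (2 ^ q * d - 2 ^ q * d')| := abs_sub _ _
    _ ≤ 2 := by linarith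

variable {m J : ℕ}

lemma t_nonneg (F : Fam m J) (ω : F.Ω) : 0 ≤ F.t ω := by
  unfold Fam.t
  positivity

lemma t_le (F : Fam m J) (ω : F.Ω) : F.t ω ≤ 1 := by
  unfold Fam.t
  rw [div_le_one (by positivity)]
  exact_mod_cast (F.tim ω).le

/-- The entropy of the time. -/
lemma CH_T_le (F : Fam m J) {κ : Type} (Y : F.Ω → κ) : CH F.p F.T Y ≤ J * Real.log 2 := by
  have h := CH_le_card F.isLaw.nonneg F.isLaw.sum_one F.T Y (fun _ => Finset.range (2 ^ J))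
    (fun ω _ => Finset.mem_range.mpr (F.tim ω))
  rw [Ex_const F.isLaw.sum_one, Finset.card_range] at h
  push_cast at h
  rwa [Real.log_pow] at h

/-- The positions at a finer scale determine those at a coarser scale. -/
lemma X_det (F : Fam m J) {i j : ℕ} (h : i ≤ j) {ω ω' : F.Ω} (e : F.X j ω = F.X j ω') :
    F.X i ω = F.X i ω' := Pool.STK.B58.fl_fine h e

/-- The line at scale `q`, given the position at scale `w`. -/
lemma line_le (F : Fam m J) {q w : ℕ} (hqw : q ≤ w) :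
    CH F.p (F.L q) (fun ω => (F.X w ω, F.W ω)) ≤
      CH F.p (F.D q) (fun ω => (F.X w ω, F.W ω)) + m * Real.log 7 := by
  have hp := F.isLaw.nonneg
  have h1 := CH_le_add hp (F.L q) (F.D q) (fun ω => (F.X w ω, F.W ω))
  have h2 : CH F.p (F.L q) (fun ω => (F.D q ω, (F.X w ω, F.W ω))) =
      CH F.p (fun ω => fl q (F.u ω)) (fun ω => (F.D q ω, (F.X w ω, F.W ω))) := by
    refine CH_congr hp ?_ ?_ (fun _ _ _ _ h => h) (fun _ _ _ _ h => h)
    · intro ω ω' _ _ h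
      have h3 := (Prod.ext_iff.mp h).1
      exact (Prod.ext_iff.mp h3).1
    · intro ω ω' _ _ h
      have h3 := Prod.ext_iff.mp h
      have h4 := (Prod.ext_iff.mp h3.2).1
      exact Prod.ext h3.1 h4
  have h3 : CH F.p (fun ω => fl q (F.u ω)) (fun ω => (F.D q ω, (F.X w ω, F.W ω))) ≤
      m * Real.log 7 := by
    refine cells hp F.isLaw.sum_one _ _ fun ω ω' h k => ?_
    simp only [Prod.mk.injEq, Fam.W] at h
    obtain ⟨hD, hX, hT, _⟩ := h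
    have et : F.t ω' = F.t ω := by
      unfold Fam.t
      rw [hT]
    have hX' : ⌊(2 : ℝ) ^ w * (F.u ω k + F.t ω * F.d ω k)⌋ =
        ⌊(2 : ℝ) ^ w * (F.u ω' k + F.t ω * F.d ω' k)⌋ := by
      have := congrFun hX k
      rw [← et]
      unfold Fam.X at this
      rw [Pool.STK.B58.fl_apply, Pool.STK.B58.fl_apply] at this
      unfold Fam.x at this
      rw [et] at this ⊢
      exact this
    exact num2 hqw (t_nonneg F ω) (t_le F ω) (congrFun hD k) hX'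
  linarith

/-- The violation of the tubes from below. -/
lemma tube_low (F : Fam m J) {q w : ℕ} (hq : q ≤ J) (hqw : q ≤ w) (hwJ : w ≤ J) {e : ℝ}
    (hT : F.Tm e) :
    F.V w - (F.tub q hq).V (w - q) ≤ CH F.p (F.L q) (fun ω => (F.X w ω, F.W ω)) + e +
      m * Real.log 7 := by
  have hp := F.isLaw.nonneg
  set T' : F.Ω → ℕ := fun ω => F.T ω / 2 ^ q with hT'
  set X' : F.Ω → Fin m → ℤ := (F.tub q hq).X (w - q) with hX'
  set D' : F.Ω → Fin m → ℤ := (F.tub q hq).D (J - q) with hD'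
  have hV' : (F.tub q hq).V (w - q) = CH F.p D' (fun ω => (F.L q ω, F.Z ω)) -
      CH F.p X' (fun ω => (T' ω, (F.L q ω, F.Z ω))) -
      m * ((((J - q : ℕ) : ℝ) - ((w - q : ℕ) : ℝ)) * Real.log 2) := rfl
  have hc : (((J - q : ℕ) : ℝ) - ((w - q : ℕ) : ℝ)) = (J : ℝ) - w := by
    rw [Nat.cast_sub hq, Nat.cast_sub hqw]
    ring
  rw [hc] at hV'
  -- directions
  have hDD : ∀ ω k, D' ω k = F.D J ω k - 2 ^ (J - q) * (F.L q ω).2 k := by
    intro ω k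
    have := Pool.STK.B58.floor_zoom q (J - q) (F.d ω k)
    rw [Nat.add_sub_cancel' hq] at this
    exact this
  have s1 : CH F.p D' (fun ω => (F.L q ω, F.Z ω)) =
      CH F.p (F.D J) (fun ω => (F.L q ω, F.Z ω)) := by
    refine CH_congr hp ?_ ?_ (fun _ _ _ _ h => h) (fun _ _ _ _ h => h)
    · intro ω ω' _ _ h
      have h1 := Prod.ext_iff.mp h
      have h2 := (Prod.ext_iff.mp h1.2).1
      funext k
      have h3 := congrFun h1.1 k
      simp only at h2 h3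
      rw [hDD, hDD, h2] at h3
      linarith
    · intro ω ω' _ _ h
      have h1 := Prod.ext_iff.mp h
      have h2 := (Prod.ext_iff.mp h1.2).1
      funext k
      have h3 := congrFun h1.1 k
      simp only at h2 h3
      rw [hDD, hDD, h2, h3]
  have s2 := bayes hp (F.D J) (F.L q) F.Z
  have s2' := CH_nonneg hp (F.L q) (fun ω => (F.D J ω, F.Z ω))
  -- positions
  have s3 := bayes hp X' F.T (fun ω => (T' ω, (F.L q ω, F.Z ω)))
  have s4 := CH_le_add hp X' (F.X w) (fun ω => (F.T ω, (T' ω, (F.L q ω, F.Z ω))))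
  have s5 : CH F.p X' (fun ω => (F.X w ω, (F.T ω, (T' ω, (F.L q ω, F.Z ω))))) ≤
      m * Real.log 7 := by
    refine cells hp F.isLaw.sum_one _ _ fun ω ω' h k => ?_
    simp only [Prod.mk.injEq, Fam.L] at h
    obtain ⟨hX, hTT, _, ⟨hu, hd⟩, _⟩ := h
    have hX2 : ⌊(2 : ℝ) ^ w * (F.u ω k + (F.T ω : ℝ) / 2 ^ J * F.d ω k)⌋ =
        ⌊(2 : ℝ) ^ w * (F.u ω' k + (F.T ω : ℝ) / 2 ^ J * F.d ω' k)⌋ := by
      have h5 := congrFun hX k
      have h6 : ⌊(2 : ℝ) ^ w * (F.u ω k + (F.T ω : ℝ) / 2 ^ J * F.d ω k)⌋ =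
        ⌊(2 : ℝ) ^ w * (F.u ω' k + (F.T ω' : ℝ) / 2 ^ J * F.d ω' k)⌋ := h5
      rw [← hTT] at h6
      exact h6
    have h7 := num1 (T := F.T ω) hqw hwJ (congrFun hu k) (congrFun hd k) hX2
    have h8 : X' ω k = ⌊(2 : ℝ) ^ (w - q) * (Int.fract ((2 : ℝ) ^ q * F.u ω k) +
        ((F.T ω / 2 ^ q : ℕ) : ℝ) / 2 ^ (J - q) * Int.fract ((2 : ℝ) ^ q * F.d ω k))⌋ := rfl
    have h9 : X' ω' k = ⌊(2 : ℝ) ^ (w - q) * (Int.fract ((2 : ℝ) ^ q * F.u ω' k) +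
        ((F.T ω / 2 ^ q : ℕ) : ℝ) / 2 ^ (J - q) * Int.fract ((2 : ℝ) ^ q * F.d ω' k))⌋ := by
      rw [hTT]
      rfl
    rw [h8, h9]
    exact h7
  have s6 : CH F.p (F.X w) (fun ω => (F.T ω, (T' ω, (F.L q ω, F.Z ω)))) =
      CH F.p (F.X w) (fun ω => (F.L q ω, F.W ω)) := by
    refine CH_congr hp (fun _ _ _ _ h => (Prod.ext_iff.mp h).1)
      (fun _ _ _ _ h => (Prod.ext_iff.mp h).1) ?_ ?_
    · intro ω ω' _ _ h
      simp only [Prod.mk.injEq, Fam.W] at h ⊢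
      tauto
    · intro ω ω' _ _ h
      simp only [Prod.mk.injEq, Fam.W] at h ⊢
      refine ⟨h.2.1, ?_, h.1, h.2.2⟩
      simp only [hT', h.2.1]
  -- the time
  have ch : ∀ {κ : Type} (Y : F.Ω → κ), CH F.p F.T Y =
      CH F.p T' Y + CH F.p F.T (fun ω => (T' ω, Y ω)) := by
    intro κ Y
    rw [← CH_chain hp]
    refine CH_congr hp ?_ ?_ (fun _ _ _ _ h => h) (fun _ _ _ _ h => h)
    · intro ω ω' _ _ h
      have h1 := (Prod.ext_iff.mp h).1
      simp only at h1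
      simp only [hT', h1]
    · intro ω ω' _ _ h
      have h1 := (Prod.ext_iff.mp h).1
      exact (Prod.ext_iff.mp h1).1
  have s7 := ch (fun ω => (F.L q ω, F.Z ω))
  have s8 := ch (fun ω => (F.l ω, F.Z ω))
  have s9 : CH F.p F.T (fun ω => (T' ω, (F.l ω, F.Z ω))) ≤
      CH F.p F.T (fun ω => (X' ω, (T' ω, (F.L q ω, F.Z ω)))) := by
    refine CH_mono_cond hp ?_
    intro ω ω' _ _ h
    simp only [Prod.mk.injEq, Fam.l] at h
    obtain ⟨h1, ⟨h2, h3⟩, h4⟩ := h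
    have h5 : X' ω = X' ω' := by
      funext k
      have h8 : X' ω k = ⌊(2 : ℝ) ^ (w - q) * (Int.fract ((2 : ℝ) ^ q * F.u ω k) +
        ((T' ω : ℕ) : ℝ) / 2 ^ (J - q) * Int.fract ((2 : ℝ) ^ q * F.d ω k))⌋ := rfl
      have h9 : X' ω' k = ⌊(2 : ℝ) ^ (w - q) * (Int.fract ((2 : ℝ) ^ q * F.u ω' k) +
        ((T' ω' : ℕ) : ℝ) / 2 ^ (J - q) * Int.fract ((2 : ℝ) ^ q * F.d ω' k))⌋ := rfl
      rw [h8, h9, h1, h2, h3]
    simp only [Prod.mk.injEq, Fam.L]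
    exact ⟨h5, h1, ⟨by rw [h2], by rw [h3]⟩, h4⟩
  have s10 : CH F.p T' (fun ω => (F.l ω, F.Z ω)) ≤ CH F.p T' (fun ω => (F.L q ω, F.Z ω)) := by
    refine CH_mono_cond hp ?_
    intro ω ω' _ _ h
    simp only [Prod.mk.injEq, Fam.l] at h
    obtain ⟨⟨h2, h3⟩, h4⟩ := h
    simp only [Prod.mk.injEq, Fam.L]
    exact ⟨⟨by rw [h2], by rw [h3]⟩, h4⟩
  -- the coarse line
  have s11 := bayes hp (F.X w) (F.L q) F.W
  have s12 := bayes hp (F.L q) F.T F.Z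
  have s13 := CH_T_le F F.Z
  have s14 : (J : ℝ) * Real.log 2 - e ≤ CH F.p F.T (fun ω => (F.l ω, F.Z ω)) := hT
  have s15 : CH F.p (F.L q) (fun ω => (F.T ω, F.Z ω)) = CH F.p (F.L q) F.W := rfl
  rw [hV', s1]
  have hVw : F.V w = CH F.p (F.D J) F.Z - CH F.p (F.X w) F.W -
      m * (((J : ℝ) - w) * Real.log 2) := rfl
  rw [hVw]
  linarith

end FANm

/-- **Fans**: the entropy of the first `q` digits of the line at a ball. -/
theorem fan_thm (hTUB : TUBStmt) (hMAS : MASStmt) : FANStmt := by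
  intro m
  obtain ⟨C₀, hC₀, h₀⟩ := hTUB m
  have hl7 : 0 ≤ m * Real.log 7 := mul_nonneg (Nat.cast_nonneg m) (Real.log_nonneg (by norm_num))
  refine ⟨C₀ + 2 * (m * Real.log 7), by linarith, ?_⟩
  intro J w q hq μ lam σ η e F hJ hqw hwJ hσ hη hμ hTm hG hG'
  have hp := F.isLaw.nonneg
  have hJ0 : (0 : ℝ) < J := by exact_mod_cast hJ
  have hwJ' : (w : ℝ) < J := by exact_mod_cast hwJ
  have hqw' : (q : ℝ) ≤ w := by exact_mod_cast hqw
  have hq0 : (0 : ℝ) ≤ q := Nat.cast_nonneg q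
  have hqJ : (0 : ℝ) < (J : ℝ) - q := by linarith
  have hwJ0 : (0 : ℝ) < (J : ℝ) - w := by linarith
  -- the master inequality
  have hm := hMAS m J q w μ lam σ η F (F.tub q hq) hqw hwJ.le (lt_of_le_of_lt hqw hwJ) hη hG hG'
  -- the upper bound for the gain
  have ha := FANm.tube_low F hq hqw hwJ.le hTm
  have hL := FANm.line_le F hqw
  -- the lower bound for the differences
  obtain ⟨_, hV⟩ := h₀ J F q hq e hTm
  have v1 := hV (w - q) (by omega)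
  have v2 := hV (J - q) (by omega)
  have hEC : 0 ≤ e + C₀ := (abs_nonneg _).trans v1
  rw [abs_le] at v1 v2
  have ew : w - q + q = w := Nat.sub_add_cancel hqw
  have eJ : J - q + q = J := Nat.sub_add_cancel hq
  have cw : (((w - q : ℕ) : ℝ) + q) = w := by
    rw [Nat.cast_sub hqw]
    ring
  have cJ : (((J - q : ℕ) : ℝ) + q) = J := by
    rw [Nat.cast_sub hq]
    ring
  rw [ew, cw] at v1
  rw [eJ, cJ] at v2
  have b1 := FANm.bayes hp (F.X w) (F.L q) F.W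
  have b2 := FANm.bayes hp (F.X J) (F.L q) F.W
  have b3 : CH F.p (F.L q) (fun ω => (F.X J ω, F.W ω)) ≤
      CH F.p (F.L q) (fun ω => (F.X w ω, F.W ω)) := by
    refine CH_mono_cond hp ?_
    intro ω ω' _ _ h
    simp only [Prod.mk.injEq] at h ⊢
    exact ⟨FANm.X_det F hwJ.le h.1, h.2⟩
  have hab : -(2 * (e + C₀)) ≤ (F.V w - (F.tub q hq).V (w - q)) -
      (F.V J - (F.tub q hq).V (J - q)) := by
    have hVw : F.V w = CH F.p (F.D J) F.Z - CH F.p (F.X w) F.W -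
      m * (((J : ℝ) - w) * Real.log 2) := rfl
    have hVJ : F.V J = CH F.p (F.D J) F.Z - CH F.p (F.X J) F.W -
      m * (((J : ℝ) - J) * Real.log 2) := rfl
    rw [hVw, hVJ]
    linarith [v1.2, v2.1]
  set a : ℝ := F.V w - (F.tub q hq).V (w - q) with hadef
  set b : ℝ := F.V J - (F.tub q hq).V (J - q) with hbdef
  have hqs : 0 ≤ (q : ℝ) * σ := mul_nonneg hq0 hσ
  set B : ℝ := 2 * η * J + 2 * (e + (C₀ + 2 * (m * Real.log 7))) with hB
  have hB0 : 0 ≤ B := by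
    have : 0 ≤ 2 * η * J := by positivity
    rw [hB]
    linarith
  have h1 : μ * ((J : ℝ) - w) / ((J : ℝ) - q) * (q * F.V w / J - a) ≤ B := by
    have e1 : μ * ((J : ℝ) - w) / ((J : ℝ) - q) * (q * F.V w / J - a) =
      -(μ * ((J : ℝ) - w) / ((J : ℝ) - q) * (a - q * F.V w / J)) := by ring
    rw [e1, hB]
    linarith
  have hc : 0 < μ * ((J : ℝ) - w) / ((J : ℝ) - q) := by positivity
  have h2 : q * F.V w / J - a ≤ B * J / (μ * ((J : ℝ) - w)) := by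
    have h3 : q * F.V w / J - a ≤ B / (μ * ((J : ℝ) - w) / ((J : ℝ) - q)) := by
      rw [le_div_iff₀ hc]
      linarith
    refine h3.trans ?_
    rw [div_div_eq_mul_div]
    refine div_le_div_of_nonneg_right ?_ (by positivity)
    exact mul_le_mul_of_nonneg_left (by linarith) hB0
  linarith

end Pool.KA
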