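import Pool.Agent.H9.KA.Stmts

/-!
# Hiding
-/

set_option autoImplicit false

namespace Pool.KA

open Finset Real
open Pool.Agent.H49.Ent Pool.Agent.H32.Dense Pool.STK

namespace HIDm

variable {Ω S T U : Type*} [Fintype Ω]

/-- Bayes' formula. -/
theorem bayes {p : Ω → ℝ} (hp : ∀ ω, 0 ≤ p ω) (X : Ω → S) (z : Ω → T) (W : Ω → U) :
    CH p X (fun ω => (z ω, W ω)) = CH p X W - (CH p z W - CH p z (fun ω => (X ω, W ω))) := by
  have h1 := CH_chain hp X z W
  have h2 := CH_chain hp z X W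
  have h3 : CH p (fun ω => (X ω, z ω)) W = CH p (fun ω => (z ω, X ω)) W := by
    refine CH_congr hp ?_ ?_ (fun _ _ _ _ h => h) (fun _ _ _ _ h => h) <;>
    · intro ω ω' _ _ h
      simp only [Prod.mk.injEq] at h ⊢
      tauto
  linarith

end HIDm

/-- **Hiding**: additional side information with price says little on the positions in the
zone. -/
theorem hid_thm (_ : MASStmt) : HIDStmt := by
  intro m J w μ lam σ η F κ z hJ hw h h'
  have hp := F.isLaw.nonneg
  have hJ0 : (0 : ℝ) < J := by exact_mod_cast hJ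
  have hV : ∀ j, (F.cnd z).V j = F.V j - (CH F.p z F.Z - CH F.p z (fun ω => (F.D J ω, F.Z ω))) +
      (CH F.p z F.W - CH F.p z (fun ω => (F.X j ω, F.W ω))) := by
    intro j
    have e0 : (F.cnd z).V j = CH F.p (F.D J) (fun ω => (z ω, F.Z ω)) -
      CH F.p (F.X j) (fun ω => (F.T ω, (z ω, F.Z ω))) - m * (((J : ℝ) - j) * Real.log 2) := rfl
    have e1 := HIDm.bayes hp (F.D J) z F.Z
    have e2 := HIDm.bayes hp (F.X j) z F.W
    have e3 : CH F.p (F.X j) (fun ω => (F.T ω, (z ω, F.Z ω))) =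
        CH F.p (F.X j) (fun ω => (z ω, F.W ω)) := by
      refine CH_congr hp (fun _ _ _ _ h => (Prod.ext_iff.mp h).1)
        (fun _ _ _ _ h => (Prod.ext_iff.mp h).1) ?_ ?_ <;>
      · intro ω ω' _ _ hh
        simp only [Prod.mk.injEq, Fam.W] at hh ⊢
        tauto
    rw [e0, e3, e1, e2]
    unfold Fam.V
    ring
  unfold Fam.G at h h'
  rw [hV J, hV w] at h'
  have e4 : μ * ((J : ℝ) - w) / J * ((CH F.p z F.Z - CH F.p z (fun ω => (F.D J ω, F.Z ω))) -
        (CH F.p z F.W - CH F.p z (fun ω => (F.X w ω, F.W ω)))) =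
      ((J : ℝ) - w) * (μ * F.V w / J - lam) - ((J : ℝ) - w) * (μ * (F.V w -
        (CH F.p z F.Z - CH F.p z (fun ω => (F.D J ω, F.Z ω))) +
      (CH F.p z F.W - CH F.p z (fun ω => (F.X w ω, F.W ω)))) / J - lam) := by
    field_simp
    ring
  rw [e4]
  linarith

end Pool.KA
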